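import Mathlib
import Pool.Agent.R351.GF.Trd

/-!
# Algebraic closure over an adjoined set
-/

set_option autoImplicit false

namespace Pool.Agent.K3h34.RM

open Algebra Pool.Agent.R351.GF

variable {F : Type} [Field F]

theorem alg_mono {S1 S2 : Subring F} (h : S1 ≤ S2) {y : F} (hy : IsAlgebraic S1 y) :
    IsAlgebraic S2 y := by
  obtain ⟨p, hp0, hp⟩ := hy
  refine ⟨p.map (Subring.inclusion h),
    (Polynomial.map_ne_zero_iff (Subring.inclusion_injective h)).2 hp0, ?_⟩
  rw [Polynomial.aeval_def] at hp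
  have hc : (algebraMap S2 F).comp (Subring.inclusion h) = algebraMap S1 F :=
    RingHom.ext fun x => rfl
  rw [Polynomial.aeval_def, Polynomial.eval₂_map, hc]
  exact hp

theorem alg_conv {R : Subring F} {T : Set F} {y : F} :
    IsAlgebraic (Algebra.adjoin R T) y ↔ IsAlgebraic ((Algebra.adjoin R T).toSubring) y := Iff.rfl

theorem adjoin_adj {R R' : Subring F} {S T : Set F} (hR : ∀ x ∈ R', x ∈ Algebra.adjoin R S) (x : F)
    (hx : x ∈ Algebra.adjoin R' T) : x ∈ Algebra.adjoin R (S ∪ T) := by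
  induction hx using Algebra.adjoin_induction with
  | mem x hx => exact Algebra.subset_adjoin (Or.inr hx)
  | algebraMap r =>
    exact Algebra.adjoin_mono Set.subset_union_left (hR _ r.2)
  | add x y _ _ h1 h2 => exact Subalgebra.add_mem _ h1 h2
  | mul x y _ _ h1 h2 => exact Subalgebra.mul_mem _ h1 h2

theorem acl_adj {R R' : Subring F} {S T : Set F} (hR : ∀ x ∈ R', x ∈ Algebra.adjoin R S) {y : F}
    (h : y ∈ acl R' T) : y ∈ acl R (S ∪ T) := by
  rw [mem_acl, alg_conv] at h ⊢
  exact alg_mono (fun x hx => adjoin_adj hR x hx) h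

end Pool.Agent.K3h34.RM
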