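import Mathlib
import Pool.Agent.R351.GF.Scale
import Pool.Agent.K3h34.RM.Adj

/-!
# Small values of polynomials with coefficients in the span of arbitrary numbers

The relative form of `Pool.Agent.R351.GF.no_bad_chain` and `scale_count`.
-/

set_option autoImplicit false

namespace Pool.Agent.K3h34.RM

open Filter Finset Pool.Agent.Y916 Pool.Agent.Y535.LG Pool.Agent.R351.GF

section Field

variable {F : Type} [Field F] {R : Subring F} {S : Set F} {k : ℕ} {z : Fin k → F}

theorem indep_rel (hz : ∀ i, z i ∉ acl R (S ∪ z '' {i' | i' < i})) :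
    AlgebraicIndependent ((Algebra.adjoin R S).toSubring) z :=
  indep_of_chain fun i hi => hz i (acl_adj (fun _ hx => hx) hi)

theorem coeffs_zero_of {R' : Subring F} {δ : ℕ} (hz : AlgebraicIndependent R' z)
    (c : Mn k δ → F) (hc : ∀ e, c e ∈ R') (h : ∑ e, c e * ∏ t, z t ^ (e.1 t : ℕ) = 0) (e : Mn k δ) :
    c e = 0 := by
  classical
  set P : MvPolynomial (Fin k) R' := ∑ e : Mn k δ, MvPolynomial.monomial (toF e) (⟨c e, hc e⟩ : R')
    with hP
  have h1 : MvPolynomial.aeval z P = 0 := by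
    rw [hP, map_sum, ← h]
    refine Finset.sum_congr rfl fun e _ => ?_
    rw [MvPolynomial.aeval_monomial, Finsupp.prod_fintype _ _ (fun i => pow_zero _)]
    rfl
  have h2 : P = 0 := by
    rw [algebraicIndependent_iff] at hz
    exact hz P h1
  have h3 := congrArg (MvPolynomial.coeff (toF e)) h2
  rw [hP, MvPolynomial.coeff_sum, MvPolynomial.coeff_zero, Finset.sum_eq_single e] at h3
  · rw [MvPolynomial.coeff_monomial, if_pos rfl] at h3
    exact congrArg Subtype.val h3
  · intro e' _ hne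
    rw [MvPolynomial.coeff_monomial, if_neg (fun h4 => hne (toF_inj h4))]
  · intro h4
    exact absurd (Finset.mem_univ _) h4

end Field

/-- There are logarithms `l i` of the numbers `n i` of absolute value at most `H`, and a polynomial of
degree at most `δ` whose coefficients are combinations of the `v i` with integers of absolute value at
most `H`, such that one of the coefficients is at least `(H + 2) ^ (- B)`, and the value at `l` is
smaller than `(H + 2) ^ (- C)`. -/
def BadR {k s : ℕ} (δ B C H : ℕ) (v : Fin s → ℂ) (n : Fin k → ℕ) : Prop :=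
  ∃ l : Fin k → ℂ, (∀ i, Complex.exp (l i) = n i) ∧ (∀ i, ‖l i‖ ≤ H) ∧
    ∃ a : Mn k δ → Fin s → ℤ, (∀ e i, |a e i| ≤ H) ∧
      (∃ e, 1 ≤ ‖∑ i, (a e i : ℂ) * v i‖ * ((H : ℝ) + 2) ^ B) ∧
      ‖∑ e : Mn k δ, (∑ i, (a e i : ℂ) * v i) * ∏ t, l t ^ (e.1 t : ℕ)‖ * ((H : ℝ) + 2) ^ C < 1

open Classical in
/-- the exceptional tuples -/
noncomputable def badSetR {s : ℕ} (k δ B C H T : ℕ) (v : Fin s → ℂ) : Finset (Fin k → ℕ) :=
  (Fintype.piFinset fun _ : Fin k => Ioc 0 T).filter (BadR δ B C H v)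

section Seq

variable {k δ s : ℕ} (U : Ultrafilter ℕ) (H T : ℕ → ℕ)

/-- a sequence of numbers of absolute value at most `(H + 2) ^ B` -/
noncomputable def vo (B : ℕ) (v : ℕ → ℂ) : Os U H :=
  ⟨fun j => if ‖v j‖ ≤ gr H j ^ B then v j else 0, B, Eventually.of_forall fun j => by
    dsimp only
    have h0 := gr_pos H j
    split_ifs with h
    · exact h
    · rw [norm_zero]
      positivity⟩

theorem vo_apply {B : ℕ} {v : ℕ → ℂ} {j : ℕ} (h : ‖v j‖ ≤ gr H j ^ B) :
    (vo U H B v : ℕ → ℂ) j = v j := if_pos h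

/-- the class of the sequence -/
noncomputable def vc (B : ℕ) (v : ℕ → ℂ) : Fl U H := Ideal.Quotient.mk (ms U H) (vo U H B v)

theorem no_bad_chainR (n : ℕ → Fin k → ℕ) (v : ℕ → Fin s → ℂ) (B : ℕ) (C : ℕ → ℕ)
    (hC : Tendsto C U atTop)
    (hn : ∀ᶠ j in (U : Filter ℕ), ∀ i, 0 < n j i ∧ n j i ≤ H j)
    (hv : ∀ j, ∀ i, ‖v j i‖ ≤ gr H j ^ B)
    (hbad : ∀ᶠ j in (U : Filter ℕ), BadR δ B (C j) (H j) (v j) (n j))
    (hch : ∀ i, lc U H (fun j => n j i) ∉
      acl (Zs U H) (insert (Ideal.Quotient.mk (ms U H) (tpi U H))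
        (Set.range fun i => vc U H B (fun j => v j i)) ∪
        (fun i' => lc U H (fun j => n j i')) '' {i' | i' < i})) : False := by
  classical
  -- the data
  have hdata : ∀ j, ∃ (l : Fin k → ℂ) (a : Mn k δ → Fin s → ℤ) (b : Fin k → ℤ),
      (∀ e i, |a e i| ≤ H j) ∧ (∀ i, |(b i : ℝ)| ≤ gr H j) ∧
      ((∀ i, 0 < n j i ∧ n j i ≤ H j) → BadR δ B (C j) (H j) (v j) (n j) →
        (∃ e, 1 ≤ ‖∑ i, (a e i : ℂ) * v j i‖ * gr H j ^ B) ∧
        ‖∑ e : Mn k δ, (∑ i, (a e i : ℂ) * v j i) * ∏ t, l t ^ (e.1 t : ℕ)‖ * gr H j ^ C j < 1 ∧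
        ∀ i, l i = (Real.log (n j i) : ℂ) + b i * (2 * Real.pi * Complex.I)) := by
    intro j
    by_cases h : (∀ i, 0 < n j i ∧ n j i ≤ H j) ∧ BadR δ B (C j) (H j) (v j) (n j)
    · obtain ⟨hn, l, hl, hlH, a, haH, ha1, hav⟩ := h
      have hb : ∀ i, ∃ b : ℤ, l i = (Real.log (n j i) : ℂ) + b * (2 * Real.pi * Complex.I) := by
        intro i
        have h3 : Complex.exp (l i) = Complex.exp (Real.log (n j i) : ℂ) := by
          rw [hl i, ← Complex.ofReal_exp, Real.exp_log (by exact_mod_cast (hn i).1)]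
          push_cast
          rfl
        exact Complex.exp_eq_exp_iff_exists_int.1 h3
      choose b hb using hb
      refine ⟨l, a, b, haH, fun i => ?_, fun _ _ => ⟨ha1, hav, hb⟩⟩
      have h4 : ‖(b i : ℂ) * (2 * Real.pi * Complex.I)‖ ≤ 2 * H j := by
        have h5 : (b i : ℂ) * (2 * Real.pi * Complex.I) = l i - (Real.log (n j i) : ℂ) := by
          rw [hb i]; ring
        rw [h5]
        refine (norm_sub_le _ _).trans ?_
        have h6 : ‖(Real.log (n j i) : ℂ)‖ ≤ H j := by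
          rw [Complex.norm_real, Real.norm_eq_abs, abs_of_nonneg (Real.log_natCast_nonneg _)]
          have h7 : (0 : ℝ) < n j i := by exact_mod_cast (hn i).1
          have h8 := Real.log_le_sub_one_of_pos h7
          have h9 : (n j i : ℝ) ≤ H j := by exact_mod_cast (hn i).2
          linarith
        have h7 := hlH i
        linarith
      rw [norm_mul, Complex.norm_intCast] at h4
      have h1 : ‖(2 * Real.pi * Complex.I : ℂ)‖ = 2 * Real.pi := by
        rw [norm_mul, norm_mul, Complex.norm_I, mul_one, Complex.norm_real, Real.norm_eq_abs,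
          abs_of_pos Real.pi_pos]
        norm_num
      rw [h1] at h4
      have h2 := Real.pi_gt_three
      have h10 : (0 : ℝ) ≤ |(b i : ℝ)| := abs_nonneg _
      have h11 : (0 : ℝ) ≤ H j := Nat.cast_nonneg _
      unfold gr
      nlinarith
    · refine ⟨0, 0, 0, fun e i => ?_, fun i => ?_, fun h1 h2 => absurd ⟨h1, h2⟩ h⟩
      · simp
      · simp only [Pi.zero_apply, Int.cast_zero, abs_zero]
        exact (gr_pos H j).le
  choose l a b haH hbH hprop using hdata
  have hp : ∀ᶠ j in (U : Filter ℕ), (∃ e, 1 ≤ ‖∑ i, (a j e i : ℂ) * v j i‖ * gr H j ^ B) ∧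
        ‖∑ e : Mn k δ, (∑ i, (a j e i : ℂ) * v j i) * ∏ t, l j t ^ (e.1 t : ℕ)‖ * gr H j ^ C j < 1 ∧
        ∀ i, l j i = (Real.log (n j i) : ℂ) + b j i * (2 * Real.pi * Complex.I) := by
    filter_upwards [hn, hbad] with j h1 h2
    exact hprop j h1 h2
  -- the classes
  have hbIZ : ∀ i, (fun j => b j i) ∈ IZ U H := fun i => (mem_IZ U H).2 ⟨1, Eventually.of_forall
    fun j => by rw [pow_one]; exact hbH j i⟩
  have haIZ : ∀ (e : Mn k δ) (i : Fin s), (fun j => a j e i) ∈ IZ U H := fun e i => (mem_IZ U H).2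
    ⟨1, Eventually.of_forall fun j => by
      rw [pow_one]
      have h1 : |((a j e i : ℤ) : ℝ)| ≤ H j := by exact_mod_cast haH j e i
      unfold gr
      linarith⟩
  set z : Fin k → Os U H := fun i => lo U H (fun j => n j i) +
    izo U H ⟨_, hbIZ i⟩ * tpi U H with hz
  set cc : Mn k δ → Os U H := fun e => ∑ i, izo U H ⟨_, haIZ e i⟩ * vo U H B (fun j => v j i) with hcc
  set ϖ : Fl U H := Ideal.Quotient.mk (ms U H) (tpi U H) with hϖ
  set S : Set (Fl U H) := insert ϖ (Set.range fun i => vc U H B (fun j => v j i)) with hS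
  have hz1 : ∀ i, (Ideal.Quotient.mk (ms U H) (z i) : Fl U H) =
      lc U H (fun j => n j i) + psi U H ⟨_, hbIZ i⟩ * ϖ := by
    intro i
    rw [hz, map_add, map_mul]
    rfl
  have hc1 : ∀ e, (Ideal.Quotient.mk (ms U H) (cc e) : Fl U H) =
      ∑ i, psi U H ⟨_, haIZ e i⟩ * vc U H B (fun j => v j i) := by
    intro e
    rw [hcc, map_sum]
    refine Finset.sum_congr rfl fun i _ => ?_
    rw [map_mul]
    rfl
  have hzj : ∀ᶠ j in (U : Filter ℕ), ∀ i, (z i : ℕ → ℂ) j = l j i := by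
    filter_upwards [hp, hn] with j hj hnj i
    rw [hj.2.2 i]
    show (lo U H (fun j => n j i) : ℕ → ℂ) j + ((b j i : ℤ) : ℂ) * (2 * Real.pi * Complex.I) = _
    rw [lo_apply U H (hnj i).2]
  have hcj : ∀ (e : Mn k δ) (j : ℕ), (cc e : ℕ → ℂ) j = ∑ i, (a j e i : ℂ) * v j i := by
    intro e j
    have h1 : (cc e : ℕ → ℂ) j =
        ∑ i, ((a j e i : ℤ) : ℂ) * (vo U H B (fun j => v j i) : ℕ → ℂ) j := by
      rw [hcc]
      simp only [AddSubmonoidClass.coe_finsetSum, Finset.sum_apply, Subring.coe_mul, Pi.mul_apply,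
        izo_apply]
    rw [h1]
    refine Finset.sum_congr rfl fun i _ => ?_
    rw [vo_apply U H (hv j i)]
  -- independence
  have hind : AlgebraicIndependent ((Algebra.adjoin (Zs U H) S).toSubring)
      (fun i => (Ideal.Quotient.mk (ms U H) (z i) : Fl U H)) := by
    apply indep_rel
    intro i hcon
    apply hch i
    set S' := (S ∪ (fun i' => lc U H (fun j => n j i')) '' {i' | i' < i} : Set (Fl U H)) with hS'
    have hbz : ∀ (i : Fin k), psi U H ⟨_, hbIZ i⟩ * ϖ ∈ acl (Zs U H) S' :=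
      fun i => acl_mul (acl_R ⟨_, rfl⟩) (subset_acl (Or.inl (Set.mem_insert _ _)))
    have h1 : (Ideal.Quotient.mk (ms U H) (z i) : Fl U H) ∈ acl (Zs U H) S' := by
      refine acl_of ?_ hcon
      rintro x (hx | ⟨i', hi', rfl⟩)
      · exact subset_acl (Or.inl hx)
      · simp only [hz1]
        exact acl_add (subset_acl (Or.inr ⟨i', hi', rfl⟩)) (hbz i')
    rw [hz1] at h1
    have h2 := acl_sub h1 (hbz i)
    rwa [add_sub_cancel_right] at h2
  have hmem : ∀ e, (Ideal.Quotient.mk (ms U H) (cc e) : Fl U H) ∈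
      (Algebra.adjoin (Zs U H) S).toSubring := by
    intro e
    rw [hc1]
    apply Subring.sum_mem
    intro i _
    apply Subring.mul_mem
    · exact (Algebra.adjoin (Zs U H) S).algebraMap_mem ⟨_, ⟨_, rfl⟩⟩
    · exact Algebra.subset_adjoin (Set.mem_insert_of_mem _ ⟨i, rfl⟩)
  have h0 := coeffs_zero_of hind (fun e : Mn k δ => (Ideal.Quotient.mk (ms U H) (cc e) : Fl U H)) hmem
    (by
      have h1 : ∑ e : Mn k δ, (Ideal.Quotient.mk (ms U H) (cc e) : Fl U H) *
          ∏ t, (Ideal.Quotient.mk (ms U H) (z t) : Fl U H) ^ (e.1 t : ℕ) =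
          Ideal.Quotient.mk (ms U H) (∑ e : Mn k δ, cc e * ∏ t, z t ^ (e.1 t : ℕ)) := by
        simp only [map_sum, map_mul, map_prod, map_pow]
      rw [h1, Ideal.Quotient.eq_zero_iff_mem, mem_ms]
      intro D
      filter_upwards [hp, hzj, hC.eventually_ge_atTop D] with j h1 h3 h4
      have h5 : ((∑ e : Mn k δ, cc e * ∏ t, z t ^ (e.1 t : ℕ) : Os U H) : ℕ → ℂ) j =
          ∑ e : Mn k δ, (∑ i, (a j e i : ℂ) * v j i) * ∏ t, l j t ^ (e.1 t : ℕ) := by
        simp only [AddSubmonoidClass.coe_finsetSum, Finset.sum_apply, Subring.coe_mul, Pi.mul_apply,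
          SubmonoidClass.coe_finsetProd, Finset.prod_apply, SubmonoidClass.coe_pow, Pi.pow_apply,
          hcj, h3]
      rw [h5]
      refine le_trans ?_ h1.2.1.le
      exact mul_le_mul_of_nonneg_left (pow_le_pow_right₀ (gr_one H j) h4) (norm_nonneg _))
  -- one coefficient is not negligible
  have h1 : ∀ᶠ j in (U : Filter ℕ), ∀ e : Mn k δ,
      ‖∑ i, (a j e i : ℂ) * v j i‖ * gr H j ^ (B + 1) ≤ 1 := by
    rw [Filter.eventually_all]
    intro e
    have h2 : (Ideal.Quotient.mk (ms U H) (cc e) : Fl U H) = 0 := h0 e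
    rw [Ideal.Quotient.eq_zero_iff_mem, mem_ms] at h2
    filter_upwards [h2 (B + 1)] with j hj
    rwa [hcj] at hj
  obtain ⟨j, hj1, hj2⟩ := (h1.and hp).exists
  obtain ⟨e, he⟩ := hj2.1
  have h2 := hj1 e
  rw [pow_succ, ← mul_assoc] at h2
  have h3 := gr_two H j
  nlinarith

end Seq

/-- **The count at one scale**, uniformly in the numbers `v i`. -/
theorem scale_countR (k δ B s : ℕ) : ∃ C : ℕ, 0 < C ∧ ∀ T H : ℕ, 1 ≤ T → T ≤ H →
    ∀ v : Fin s → ℂ, (∀ i, ‖v i‖ ≤ ((H : ℝ) + 2) ^ B) →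
    ((badSetR k δ B C H T v).card : ℝ) ≤ C * (T : ℝ) ^ ((k : ℝ) - 1 / C) := by
  classical
  by_contra hcon
  push Not at hcon
  choose T H hT hTH v hv hcard using fun j : ℕ => hcon (j + 1) (Nat.succ_pos j)
  set U : Ultrafilter ℕ := hyperfilter ℕ with hU
  have hUa : (U : Filter ℕ) ≤ atTop := Nat.hyperfilter_le_atTop
  have htriv : ∀ j, ((badSetR k δ B (j + 1) (H j) (T j) (v j)).card : ℝ) ≤ (T j : ℝ) ^ k := by
    intro j
    have h1 : (badSetR k δ B (j + 1) (H j) (T j) (v j)).card ≤ T j ^ k := by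
      refine (Finset.card_filter_le _ _).trans ?_
      rw [Fintype.card_piFinset_const, Nat.card_Ioc, Nat.sub_zero]
    exact_mod_cast h1
  have hTj : ∀ j, j ≤ T j := by
    intro j
    have h1 := (hcard j).trans_le (htriv j)
    have ht1 : (1 : ℝ) ≤ T j := by exact_mod_cast hT j
    have ht0 : (0 : ℝ) < T j := by linarith
    have h2 : (T j : ℝ) ^ k = (T j : ℝ) ^ (1 / ((j + 1 : ℕ) : ℝ)) *
        (T j : ℝ) ^ ((k : ℝ) - 1 / ((j + 1 : ℕ) : ℝ)) := by
      rw [← Real.rpow_add ht0, ← Real.rpow_natCast]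
      congr 1
      ring
    rw [h2] at h1
    have h3 := lt_of_mul_lt_mul_right h1 (Real.rpow_nonneg ht0.le _)
    have h4 : (T j : ℝ) ^ (1 / ((j + 1 : ℕ) : ℝ)) ≤ (T j : ℝ) ^ (1 : ℝ) := by
      apply Real.rpow_le_rpow_of_exponent_le ht1
      rw [div_le_one (by positivity)]
      push_cast
      linarith [show (0 : ℝ) ≤ j from Nat.cast_nonneg j]
    rw [Real.rpow_one] at h4
    have h5 : ((j + 1 : ℕ) : ℝ) < T j := lt_of_lt_of_le h3 h4
    have h6 : j + 1 < T j := by exact_mod_cast h5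
    omega
  have hTt : Tendsto T U atTop := (tendsto_atTop_mono hTj tendsto_id).mono_left hUa
  obtain ⟨n, hn, hch⟩ := exists_chain U H T hTt (Eventually.of_forall hTH) k
    (fun j => badSetR k δ B (j + 1) (H j) (T j) (v j)) (fun j => Finset.filter_subset _ _) (by
      intro c hc
      have h1 : ∀ᶠ j : ℕ in (U : Filter ℕ), 1 / c ≤ (j : ℝ) :=
        (tendsto_natCast_atTop_atTop.mono_left hUa).eventually_ge_atTop (1 / c)
      filter_upwards [h1] with j hj
      refine lt_of_le_of_lt ?_ (hcard j)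
      have ht1 : (1 : ℝ) ≤ T j := by exact_mod_cast hT j
      have h2 : (T j : ℝ) ^ ((k : ℝ) - c) ≤ (T j : ℝ) ^ ((k : ℝ) - 1 / ((j + 1 : ℕ) : ℝ)) := by
        apply Real.rpow_le_rpow_of_exponent_le ht1
        have h3 : 1 / ((j + 1 : ℕ) : ℝ) ≤ c := by
          rw [div_le_iff₀ (by positivity)]
          rw [div_le_iff₀ hc] at hj
          push_cast
          nlinarith
        linarith
      refine h2.trans (le_mul_of_one_le_left (Real.rpow_nonneg (by linarith) _) ?_)
      push_cast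
      linarith [show (0 : ℝ) ≤ j from Nat.cast_nonneg j])
    (insert (Ideal.Quotient.mk (ms U H) (tpi U H)) (Set.range fun i => vc U H B (fun j => v j i)))
    ((Set.finite_range _).insert _)
  refine no_bad_chainR (δ := δ) U H n v B (fun j => j + 1) ?_ ?_ hv ?_ hch
  · exact (tendsto_add_atTop_nat 1).mono_left hUa
  · filter_upwards [hn] with j hj i
    have h1 := Finset.mem_Ioc.1 ((Fintype.mem_piFinset.1 (Finset.mem_filter.1 hj).1) i)
    exact ⟨h1.1, h1.2.trans (hTH j)⟩
  · filter_upwards [hn] with j hj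
    exact (Finset.mem_filter.1 hj).2

end Pool.Agent.K3h34.RM
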