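import Mathlib
import Pool.Agent.R351.GF.Fin
import Pool.Agent.K3h34.RM.Chain

/-!
# Relative measures at real heights, and in a range of heights
-/

set_option autoImplicit false

namespace Pool.Agent.K3h34.RM

open Filter Finset Pool.Agent.Y916 Pool.Agent.Y535.LG Pool.Agent.R351.GF

/-- small values at the logarithms of `n` of polynomials with coefficients in the span of `v` -/
def SmlR {k s : ℕ} (d B C : ℕ) (H : ℝ) (v : Fin s → ℂ) (n : Fin k → ℕ) : Prop :=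
  ∃ l : Fin k → ℂ, (∀ i, Complex.exp (l i) = n i) ∧ (∀ i, |(l i).im| ≤ H) ∧
    ∃ P : MvPolynomial (Fin k) ℂ, P.totalDegree ≤ d ∧
      (∀ e, ∃ a : Fin s → ℤ, (∀ i, |(a i : ℝ)| ≤ H) ∧ P.coeff e = ∑ i, (a i : ℂ) * v i) ∧
      (∃ e, 1 / H ^ B ≤ ‖P.coeff e‖) ∧ ‖MvPolynomial.eval l P‖ < 1 / H ^ C

theorem toF_surjC {n Δ : ℕ} (P : MvPolynomial (Fin n) ℂ) (hP : P.totalDegree ≤ Δ) (d : Fin n →₀ ℕ)
    (hd : P.coeff d ≠ 0) : ∃ e : Mn n Δ, toF e = d := by
  have h1 : (d.sum fun _ k => k) ≤ Δ :=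
    (MvPolynomial.le_totalDegree (MvPolynomial.mem_support_iff.2 hd)).trans hP
  have h2 : ∑ i, d i ≤ Δ := by
    rwa [Finsupp.sum_fintype _ _ (fun _ => rfl)] at h1
  have hi : ∀ i, d i < Δ + 1 := fun i => by
    have := Finset.single_le_sum (f := fun i => d i) (fun _ _ => Nat.zero_le _) (Finset.mem_univ i)
    omega
  refine ⟨⟨fun i => ⟨d i, hi i⟩, h2⟩, ?_⟩
  ext s
  rfl

theorem eval_sumC {n Δ : ℕ} (P : MvPolynomial (Fin n) ℂ) (hP : P.totalDegree ≤ Δ) (x : Fin n → ℂ) :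
    MvPolynomial.eval x P = ∑ e : Mn n Δ, P.coeff (toF e) * ∏ s, x s ^ (e.1 s : ℕ) := by
  classical
  rw [MvPolynomial.eval_eq']
  have h1 : ∑ d ∈ P.support, P.coeff d * ∏ i, x i ^ d i =
      ∑ d ∈ Finset.univ.image (toF (n := n) (Δ := Δ)), P.coeff d * ∏ i, x i ^ d i := by
    refine Finset.sum_subset ?_ ?_
    · intro d hd
      obtain ⟨e, he⟩ := toF_surjC P hP d (MvPolynomial.mem_support_iff.1 hd)
      exact Finset.mem_image.2 ⟨e, Finset.mem_univ _, he⟩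
    · intro d _ hd
      rw [MvPolynomial.notMem_support_iff.1 hd]
      simp
  rw [h1, Finset.sum_image (fun a _ b _ h => toF_inj h)]
  refine Finset.sum_congr rfl fun e _ => ?_
  rfl

/-- small values at height `H` are bad at the right scale -/
theorem badR_of_smlR {k s d B C K N T : ℕ} {H : ℝ} {v : Fin s → ℂ} {n : Fin k → ℕ}
    (hn : n ∈ Fintype.piFinset fun _ : Fin k => Ioc 0 T) (hH : 2 ≤ H)
    (hN : H + T ≤ N) (hNC : ((N : ℝ) + 2) ^ C ≤ H ^ K) (h : SmlR d B K H v n) :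
    BadR d B C N v n := by
  obtain ⟨l, hl, hlH, P, hPd, hPa, ⟨e₀, he₀⟩, hPv⟩ := h
  have hTn : (0 : ℝ) ≤ T := Nat.cast_nonneg _
  have hHp : (0 : ℝ) < H := by linarith
  choose a haH ha using hPa
  refine ⟨l, hl, fun i => ?_, fun e i => a (toF e) i, fun e i => ?_, ?_, ?_⟩
  · have h1 := Complex.norm_le_abs_re_add_abs_im (l i)
    have h0 := box_pos hn i
    have h2 : |(l i).re| ≤ T := by
      have h3 : Real.exp (l i).re = n i := by
        have := congrArg norm (hl i)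
        rwa [Complex.norm_exp, Complex.norm_natCast] at this
      have h4 : (l i).re = Real.log (n i) := by rw [← h3, Real.log_exp]
      rw [h4, abs_of_nonneg (Real.log_natCast_nonneg _)]
      have h5 : (0 : ℝ) < n i := by exact_mod_cast h0
      have h6 := Real.log_le_sub_one_of_pos h5
      have h7 : (n i : ℝ) ≤ T := by exact_mod_cast box_le hn i
      linarith
    have h3 := hlH i
    linarith
  · have h1 := haH (toF e) i
    have h2 : |((a (toF e) i : ℤ) : ℝ)| ≤ N := by linarith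
    exact_mod_cast h2
  · have h1 : P.coeff e₀ ≠ 0 := by
      intro h0
      rw [h0, norm_zero] at he₀
      have : 0 < 1 / H ^ B := by positivity
      linarith
    obtain ⟨e, he⟩ := toF_surjC P hPd e₀ h1
    refine ⟨e, ?_⟩
    show 1 ≤ ‖∑ i, (a (toF e) i : ℂ) * v i‖ * ((N : ℝ) + 2) ^ B
    rw [he, ← ha]
    have h2 : H ^ B ≤ ((N : ℝ) + 2) ^ B := pow_le_pow_left₀ hHp.le (by linarith) _
    calc (1 : ℝ) = 1 / H ^ B * H ^ B := by field_simp
      _ ≤ ‖P.coeff e₀‖ * ((N : ℝ) + 2) ^ B :=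
          mul_le_mul he₀ h2 (by positivity) (norm_nonneg _)
  · have h1 : ∑ e : Mn k d, (∑ i, (a (toF e) i : ℂ) * v i) * ∏ t, l t ^ (e.1 t : ℕ) =
        MvPolynomial.eval l P := by
      rw [eval_sumC P hPd]
      refine Finset.sum_congr rfl fun e _ => ?_
      rw [ha]
    rw [h1]
    have hp : (0 : ℝ) < ((N : ℝ) + 2) ^ C := by positivity
    calc ‖MvPolynomial.eval l P‖ * ((N : ℝ) + 2) ^ C < 1 / H ^ K * ((N : ℝ) + 2) ^ C :=
          mul_lt_mul_of_pos_right hPv hp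
      _ ≤ 1 / H ^ K * H ^ K := by
          refine mul_le_mul le_rfl hNC hp.le (by positivity)
      _ = 1 := by field_simp

/-- the set of the exceptional tuples, for some height in a set `𝓗` -/
noncomputable def exS {s : ℕ} (k d B C T : ℕ) (𝓗 : Set ℝ) (v : Fin s → ℂ) : Finset (Fin k → ℕ) :=
  open Classical in
  (Fintype.piFinset fun _ : Fin k => Ioc 0 T).filter (fun n => ∃ H ∈ 𝓗, SmlR d B C H v n)

theorem five_le {H : ℝ} (hH : 2 ≤ H) : (5 : ℝ) ≤ H ^ 3 := by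
  have : (2 : ℝ) ^ 3 ≤ H ^ 3 := pow_le_pow_left₀ (by norm_num) hH 3
  norm_num at this
  linarith

/-- **A window of heights.** -/
theorem window_count (k d B s : ℕ) : ∃ C : ℕ, 0 < C ∧ ∀ K : ℕ, 5 * C ≤ K → ∀ (T : ℕ) (Y : ℝ), 1 ≤ T →
    T ≤ Y → 2 ≤ Y → ∀ v : Fin s → ℂ, (∀ i, ‖v i‖ ≤ Y ^ B) →
    ((exS k d B K T (Set.Icc Y (Y ^ 2)) v).card : ℝ) ≤ C * (T : ℝ) ^ ((k : ℝ) - 1 / C) := by
  classical
  obtain ⟨C, hC, h⟩ := scale_countR k d B s
  refine ⟨2 * C, by omega, fun K hK T Y hT hTY hY v hv => ?_⟩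
  set N := ⌈2 * Y ^ 2⌉₊ with hN
  have hN1 : 2 * Y ^ 2 ≤ N := Nat.le_ceil _
  have hN2 : (N : ℝ) < 2 * Y ^ 2 + 1 := Nat.ceil_lt_add_one (by positivity)
  have hYY : Y ≤ Y ^ 2 := by nlinarith
  have hTN : T ≤ N := by
    have : (T : ℝ) ≤ N := by nlinarith
    exact_mod_cast this
  have hsub : exS k d B K T (Set.Icc Y (Y ^ 2)) v ⊆ badSetR k d B C N T v := by
    intro n hn
    obtain ⟨hnB, H, ⟨hH1, hH2⟩, hsm⟩ := mem_filter.1 hn
    have hH : 2 ≤ H := hY.trans hH1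
    refine mem_filter.2 ⟨hnB, badR_of_smlR hnB hH ?_ ?_ hsm⟩
    · linarith
    · have h0 : (0 : ℝ) ≤ Y := by linarith
      have h1 : (N : ℝ) + 2 ≤ H ^ 5 := by
        have h2 : Y ^ 2 ≤ H ^ 2 := pow_le_pow_left₀ h0 hH1 _
        have h3 := five_le hH
        calc (N : ℝ) + 2 ≤ 5 * H ^ 2 := by nlinarith
          _ ≤ H ^ 3 * H ^ 2 := mul_le_mul_of_nonneg_right h3 (by positivity)
          _ = H ^ 5 := by ring
      calc ((N : ℝ) + 2) ^ C ≤ (H ^ 5) ^ C := pow_le_pow_left₀ (by positivity) h1 _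
        _ = H ^ (5 * C) := by rw [← pow_mul]
        _ ≤ H ^ K := by
            apply pow_le_pow_right₀ (by linarith)
            omega
  have h1 : ((exS k d B K T (Set.Icc Y (Y ^ 2)) v).card : ℝ) ≤ (badSetR k d B C N T v).card := by
    exact_mod_cast card_le_card hsub
  have hT0 : (1 : ℝ) ≤ T := by exact_mod_cast hT
  have hC0 : (0 : ℝ) < C := by exact_mod_cast hC
  refine h1.trans ((h T N hT hTN v (fun i => (hv i).trans ?_)).trans ?_)
  · exact pow_le_pow_left₀ (by linarith) (by nlinarith) _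
  · refine mul_le_mul (by push_cast; linarith) ?_ (Real.rpow_nonneg (by linarith) _) (by positivity)
    apply Real.rpow_le_rpow_of_exponent_le hT0
    have : 1 / ((2 * C : ℕ) : ℝ) ≤ 1 / (C : ℝ) := by
      apply one_div_le_one_div_of_le hC0
      push_cast
      linarith
    linarith

end Pool.Agent.K3h34.RM
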