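import Mathlib
import Pool.Agent.K3h34.RM.Count

/-!
# Relative measures: a range of heights, and most heights
-/

set_option autoImplicit false

namespace Pool.Agent.K3h34.RM

open Filter Finset Pool.Agent.Y916 Pool.Agent.Y535.LG Pool.Agent.R351.GF

theorem exS_mono {k s d B K T : ℕ} {𝓗 𝓗' : Set ℝ} {v : Fin s → ℂ} (h : 𝓗 ⊆ 𝓗') :
    exS k d B K T 𝓗 v ⊆ exS k d B K T 𝓗' v := by
  classical
  intro n hn
  obtain ⟨hnB, H, hH, hsm⟩ := mem_filter.1 hn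
  exact mem_filter.2 ⟨hnB, H, h hH, hsm⟩

/-- every height of the range is in a window -/
theorem exists_window {Y H : ℝ} (hY : 2 ≤ Y) (hYH : Y ≤ H) {I : ℕ} (hI : H ≤ Y ^ 2 ^ I) :
    ∃ i ≤ I, H ∈ Set.Icc (Y ^ 2 ^ i) ((Y ^ 2 ^ i) ^ 2) := by
  classical
  have hex : ∃ i, H ≤ Y ^ 2 ^ i := ⟨I, hI⟩
  set i := Nat.find hex with hi
  have hi1 : H ≤ Y ^ 2 ^ i := Nat.find_spec hex
  have hiI : i ≤ I := Nat.find_min' hex hI
  rcases Nat.eq_zero_or_pos i with h0 | hpos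
  · refine ⟨0, Nat.zero_le _, ?_, ?_⟩
    · simpa using hYH
    · rw [h0] at hi1
      simp only [pow_zero, pow_one] at hi1 ⊢
      nlinarith
  · obtain ⟨j, hj⟩ := Nat.exists_eq_succ_of_ne_zero hpos.ne'
    have hj1 : ¬ H ≤ Y ^ 2 ^ j := Nat.find_min hex (by omega)
    refine ⟨j, by omega, (not_le.1 hj1).le, ?_⟩
    rw [← pow_mul, ← pow_succ]
    rw [hj] at hi1
    exact hi1

/-- the number of windows up to a double exponential -/
theorem window_bound {Y x H : ℝ} (hY : 2 ≤ Y) (hx : 1 ≤ x) (hH : H ≤ Real.exp (Real.exp x)) :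
    H ≤ Y ^ 2 ^ ⌈3 * x⌉₊ := by
  set I := ⌈3 * x⌉₊ with hI
  have hI1 : 3 * x ≤ I := Nat.le_ceil _
  have hlog2 : (0.69 : ℝ) < Real.log 2 := by
    have := Real.log_two_gt_d9
    linarith
  have h1 : Real.exp (2 * x) ≤ (2 : ℝ) ^ I := by
    rw [← Real.rpow_natCast, Real.rpow_def_of_pos (by norm_num)]
    apply Real.exp_le_exp.2
    nlinarith
  have h2 : Real.log 2 ≤ Real.log Y := Real.log_le_log (by norm_num) hY
  have h5 : (Y ^ 2 ^ I : ℝ) = Real.exp ((2 : ℝ) ^ I * Real.log Y) := by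
    rw [mul_comm ((2 : ℝ) ^ I), ← Real.rpow_natCast, Real.rpow_def_of_pos (by linarith)]
    push_cast
    rfl
  rw [h5]
  refine hH.trans (Real.exp_le_exp.2 ?_)
  have h7 : Real.exp (2 * x) = Real.exp x * Real.exp x := by rw [← Real.exp_add]; congr 1; ring
  have h9 : x + 1 ≤ Real.exp x := Real.add_one_le_exp x
  have h10 : 0 < Real.exp x := Real.exp_pos x
  have h11 : (2 : ℝ) ^ I * 0.69 ≤ (2 : ℝ) ^ I * Real.log Y :=
    mul_le_mul_of_nonneg_left (by linarith) (by positivity)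
  nlinarith

/-- the exponents -/
theorem expo_le {k C K T : ℕ} (hC : 0 < C) (hK : 2 * C ≤ K) (hT : 1 ≤ T) :
    (T : ℝ) ^ (1 / (K : ℝ)) * (T : ℝ) ^ ((k : ℝ) - 1 / C) ≤ (T : ℝ) ^ ((k : ℝ) - 1 / K) := by
  have hT0 : (1 : ℝ) ≤ T := by exact_mod_cast hT
  rw [← Real.rpow_add (by linarith)]
  apply Real.rpow_le_rpow_of_exponent_le hT0
  have hC0 : (0 : ℝ) < C := by exact_mod_cast hC
  have h1 : 1 / (K : ℝ) ≤ 1 / (2 * C) := by
    apply one_div_le_one_div_of_le (by positivity)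
    exact_mod_cast hK
  have h2 : 1 / (C : ℝ) = 2 * (1 / (2 * C)) := by field_simp
  linarith

/-- **The three counts.** -/
theorem main (k d B s : ℕ) (hB : 1 ≤ B) : ∃ K₀ : ℕ, 0 < K₀ ∧ ∀ K ≥ K₀, ∀ T : ℕ, 1 ≤ T →
    (∀ Y : ℝ, T ≤ Y → 2 ≤ Y → ∀ v : Fin s → ℂ, (∀ i, ‖v i‖ ≤ Y ^ B) →
      ((exS k d B K T (Set.Icc Y (Y ^ 2)) v).card : ℝ) ≤ K * (T : ℝ) ^ ((k : ℝ) - 1 / K)) ∧
    (∀ v : Fin s → ℂ, (∀ i, ‖v i‖ ≤ (max 2 (T : ℝ)) ^ B) →
      ((exS k d B K T {H | 2 ≤ H ∧ T ≤ H ∧ H ≤ Real.exp (Real.exp ((T : ℝ) ^ (1 / (K : ℝ))))}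
        v).card : ℝ) ≤ K * (T : ℝ) ^ ((k : ℝ) - 1 / K)) ∧
    (∀ v : Fin s → ℂ,
      open Classical in
      (((Fintype.piFinset fun _ : Fin k => Ioc 0 T).filter fun n =>
        ¬ ∃ᶠ I : ℕ in atTop, (((range I).filter fun i =>
          n ∈ exS k d B K T (Set.Icc ((2 : ℝ) ^ 2 ^ i) (((2 : ℝ) ^ 2 ^ i) ^ 2)) v).card : ℝ) ≤
            (T : ℝ) ^ (-(1 / (K : ℝ))) * I).card : ℝ) ≤ K * (T : ℝ) ^ ((k : ℝ) - 1 / K)) := by
  classical
  obtain ⟨C, hC, h⟩ := window_count k d B s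
  refine ⟨5 * C, by omega, fun K hK T hT => ?_⟩
  have hT0 : (1 : ℝ) ≤ T := by exact_mod_cast hT
  have hTp : (0 : ℝ) < T := by linarith
  have hC0 : (0 : ℝ) < C := by exact_mod_cast hC
  have hKr : (5 * C : ℝ) ≤ K := by exact_mod_cast hK
  have hK0 : (0 : ℝ) < K := by linarith
  have hx1 : 1 ≤ (T : ℝ) ^ (1 / (K : ℝ)) := Real.one_le_rpow hT0 (by positivity)
  have hexp := expo_le (k := k) (K := K) hC (by omega) hT
  have hTC : 0 ≤ (T : ℝ) ^ ((k : ℝ) - 1 / C) := Real.rpow_nonneg hTp.le _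
  have hTK : 0 ≤ (T : ℝ) ^ ((k : ℝ) - 1 / K) := Real.rpow_nonneg hTp.le _
  have hCK : (T : ℝ) ^ ((k : ℝ) - 1 / C) ≤ (T : ℝ) ^ ((k : ℝ) - 1 / K) := by
    refine le_trans ?_ hexp
    exact le_mul_of_one_le_left hTC hx1
  refine ⟨fun Y hTY hY v hv => ?_, fun v hv => ?_, fun v => ?_⟩
  · refine (h K hK T Y hT hTY hY v hv).trans ?_
    exact mul_le_mul (by linarith) hCK hTC hK0.le
  · -- the range
    set x : ℝ := (T : ℝ) ^ (1 / (K : ℝ)) with hx
    set I := ⌈3 * x⌉₊ with hI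
    have hI2 : (I : ℝ) + 1 ≤ 5 * x := by
      have := Nat.ceil_lt_add_one (by linarith : (0 : ℝ) ≤ 3 * x)
      rw [← hI] at this
      linarith
    set Y : ℝ := max 2 (T : ℝ) with hY
    have hY2 : 2 ≤ Y := le_max_left _ _
    have hYT : (T : ℝ) ≤ Y := le_max_right _ _
    have hYi : ∀ i : ℕ, Y ≤ Y ^ 2 ^ i := fun i => by
      conv_lhs => rw [← pow_one Y]
      exact pow_le_pow_right₀ (by linarith) Nat.one_le_two_pow
    have hsub : exS k d B K T {H | 2 ≤ H ∧ T ≤ H ∧ H ≤ Real.exp (Real.exp x)} v ⊆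
        (range (I + 1)).biUnion fun i => exS k d B K T (Set.Icc (Y ^ 2 ^ i) ((Y ^ 2 ^ i) ^ 2)) v := by
      intro n hn
      obtain ⟨hnB, H, ⟨hH2, hHT, hHx⟩, hsm⟩ := mem_filter.1 hn
      obtain ⟨i, hi, hiH⟩ := exists_window hY2 (max_le hH2 hHT) (window_bound hY2 hx1 hHx)
      rw [mem_biUnion]
      exact ⟨i, mem_range.2 (by omega), mem_filter.2 ⟨hnB, H, hiH, hsm⟩⟩
    have h1 : ((exS k d B K T {H | 2 ≤ H ∧ T ≤ H ∧ H ≤ Real.exp (Real.exp x)} v).card : ℝ) ≤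
        ∑ i ∈ range (I + 1), ((exS k d B K T (Set.Icc (Y ^ 2 ^ i) ((Y ^ 2 ^ i) ^ 2)) v).card : ℝ) := by
      have := (card_le_card hsub).trans card_biUnion_le
      exact_mod_cast this
    refine h1.trans ((Finset.sum_le_sum fun i _ => h K hK T (Y ^ 2 ^ i) hT (hYT.trans (hYi i))
      (hY2.trans (hYi i)) v (fun j => (hv j).trans
        (pow_le_pow_left₀ (by linarith) (hYi i) _))).trans ?_)
    rw [Finset.sum_const, nsmul_eq_mul, card_range]
    push_cast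
    calc ((I : ℝ) + 1) * (C * (T : ℝ) ^ ((k : ℝ) - 1 / C)) ≤ 5 * x * (C * (T : ℝ) ^ ((k : ℝ) - 1 / C)) :=
          mul_le_mul_of_nonneg_right hI2 (by positivity)
      _ = 5 * C * (x * (T : ℝ) ^ ((k : ℝ) - 1 / C)) := by ring
      _ ≤ K * (T : ℝ) ^ ((k : ℝ) - 1 / K) := mul_le_mul hKr hexp (by positivity) hK0.le
  · -- most heights
    set W : ℕ → Finset (Fin k → ℕ) := fun i =>
      exS k d B K T (Set.Icc ((2 : ℝ) ^ 2 ^ i) (((2 : ℝ) ^ 2 ^ i) ^ 2)) v with hW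
    set box := (Fintype.piFinset fun _ : Fin k => Ioc 0 T) with hbox
    have hWbox : ∀ i, W i ⊆ box := fun i => filter_subset _ _
    set E := box.filter fun n =>
        ¬ ∃ᶠ I : ℕ in atTop, (((range I).filter fun i => n ∈ W i).card : ℝ) ≤
            (T : ℝ) ^ (-(1 / (K : ℝ))) * I with hE
    -- the windows from some point on
    have htop : Tendsto (fun i : ℕ => (2 : ℝ) ^ 2 ^ i) atTop atTop := by
      refine tendsto_atTop_mono (fun i => ?_) (tendsto_natCast_atTop_atTop (R := ℝ))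
      have h1 : i < 2 ^ i := Nat.lt_two_pow_self
      have h2 : 2 ^ i < 2 ^ 2 ^ i := Nat.lt_two_pow_self
      have h3 : i ≤ 2 ^ 2 ^ i := by omega
      exact_mod_cast h3
    obtain ⟨i₀, hi₀⟩ : ∃ i₀ : ℕ, ∀ i ≥ i₀, (T : ℝ) ≤ (2 : ℝ) ^ 2 ^ i ∧ 2 ≤ (2 : ℝ) ^ 2 ^ i ∧
        ∀ j, ‖v j‖ ≤ ((2 : ℝ) ^ 2 ^ i) ^ B := by
      have h1 : ∀ᶠ i : ℕ in atTop, (T : ℝ) ≤ (2 : ℝ) ^ 2 ^ i ∧ 2 ≤ (2 : ℝ) ^ 2 ^ i ∧
        ∀ j, ‖v j‖ ≤ ((2 : ℝ) ^ 2 ^ i) ^ B := by
        filter_upwards [htop.eventually_ge_atTop (T : ℝ), htop.eventually_ge_atTop 2,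
          htop.eventually_ge_atTop (∑ j, ‖v j‖)] with i h1 h2 h3
        refine ⟨h1, h2, fun j => ?_⟩
        have h4 : ‖v j‖ ≤ ∑ j, ‖v j‖ :=
          Finset.single_le_sum (f := fun j => ‖v j‖) (fun _ _ => norm_nonneg _) (mem_univ j)
        have h5 : (2 : ℝ) ^ 2 ^ i ≤ ((2 : ℝ) ^ 2 ^ i) ^ B := by
          conv_lhs => rw [← pow_one ((2 : ℝ) ^ 2 ^ i)]
          exact pow_le_pow_right₀ (by linarith) hB
        linarith
      exact eventually_atTop.1 h1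
    have hWc : ∀ i ≥ i₀, ((W i).card : ℝ) ≤ C * (T : ℝ) ^ ((k : ℝ) - 1 / C) := fun i hi =>
      h K hK T _ hT (hi₀ i hi).1 (hi₀ i hi).2.1 v (hi₀ i hi).2.2
    have hWt : ∀ i, ((W i).card : ℝ) ≤ (T : ℝ) ^ k := by
      intro i
      have h1 : (W i).card ≤ T ^ k := by
        refine (Finset.card_filter_le _ _).trans ?_
        rw [Fintype.card_piFinset_const, Nat.card_Ioc, Nat.sub_zero]
      exact_mod_cast h1
    -- double counting
    have hdc : ∀ I : ℕ, ∑ n ∈ box, (((range I).filter fun i => n ∈ W i).card : ℝ) =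
        ∑ i ∈ range I, ((W i).card : ℝ) := by
      intro I
      have h1 : ∀ n, (((range I).filter fun i => n ∈ W i).card : ℝ) =
          ∑ i ∈ range I, if n ∈ W i then (1 : ℝ) else 0 := by
        intro n
        rw [Finset.sum_ite, Finset.sum_const_zero, add_zero, Finset.sum_const, nsmul_eq_mul, mul_one]
      simp only [h1]
      rw [Finset.sum_comm]
      refine Finset.sum_congr rfl fun i _ => ?_
      rw [Finset.sum_ite, Finset.sum_const_zero, add_zero, Finset.sum_const, nsmul_eq_mul, mul_one]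
      congr 2
      ext n
      rw [mem_filter]
      exact ⟨fun h => h.2, fun h => ⟨hWbox i h, h⟩⟩
    have hsum : ∀ I : ℕ, ∑ i ∈ range I, ((W i).card : ℝ) ≤
        i₀ * (T : ℝ) ^ k + I * (C * (T : ℝ) ^ ((k : ℝ) - 1 / C)) := by
      intro I
      have h1 : ∀ i ∈ range I, ((W i).card : ℝ) ≤
          (if i < i₀ then (T : ℝ) ^ k else 0) + C * (T : ℝ) ^ ((k : ℝ) - 1 / C) := by
        intro i _
        split_ifs with h2
        · have := hWt i
          have h3 : 0 ≤ C * (T : ℝ) ^ ((k : ℝ) - 1 / C) := by positivity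
          linarith
        · rw [zero_add]
          exact hWc i (by omega)
      refine (Finset.sum_le_sum h1).trans ?_
      rw [Finset.sum_add_distrib, Finset.sum_const, nsmul_eq_mul, card_range, Finset.sum_ite,
        Finset.sum_const_zero, add_zero, Finset.sum_const, nsmul_eq_mul]
      have h2 : (((range I).filter fun i => i < i₀).card : ℝ) ≤ i₀ := by
        have h3 : ((range I).filter fun i => i < i₀) ⊆ range i₀ := by
          intro i hi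
          exact mem_range.2 (mem_filter.1 hi).2
        have h4 := card_le_card h3
        rw [card_range] at h4
        exact_mod_cast h4
      have h3 : (0 : ℝ) ≤ (T : ℝ) ^ k := by positivity
      have h4 := mul_le_mul_of_nonneg_right h2 h3
      linarith
    -- a large index
    have hev : ∀ᶠ I : ℕ in atTop, ∀ n ∈ E, (T : ℝ) ^ (-(1 / (K : ℝ))) * I <
        (((range I).filter fun i => n ∈ W i).card : ℝ) := by
      rw [Filter.eventually_all_finset]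
      intro n hn
      have h1 := (mem_filter.1 hn).2
      rw [Filter.not_frequently] at h1
      filter_upwards [h1] with I hI
      exact not_le.1 hI
    have hCT : 0 < (C : ℝ) * (T : ℝ) ^ ((k : ℝ) - 1 / C) := by
      have := Real.rpow_pos_of_pos hTp ((k : ℝ) - 1 / C)
      positivity
    obtain ⟨I, hI1, hI2, hI3⟩ := (hev.and ((eventually_gt_atTop 0).and
      ((tendsto_natCast_atTop_atTop (R := ℝ)).eventually_ge_atTop
        (i₀ * (T : ℝ) ^ k / (C * (T : ℝ) ^ ((k : ℝ) - 1 / C)))))).exists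
    have hI0 : (0 : ℝ) < I := by exact_mod_cast hI2
    rw [div_le_iff₀ hCT] at hI3
    have hEs : (E.card : ℝ) * ((T : ℝ) ^ (-(1 / (K : ℝ))) * I) ≤
        2 * (I * (C * (T : ℝ) ^ ((k : ℝ) - 1 / C))) := by
      calc (E.card : ℝ) * ((T : ℝ) ^ (-(1 / (K : ℝ))) * I) =
            ∑ _n ∈ E, ((T : ℝ) ^ (-(1 / (K : ℝ))) * I) := by rw [Finset.sum_const, nsmul_eq_mul]
        _ ≤ ∑ n ∈ E, (((range I).filter fun i => n ∈ W i).card : ℝ) :=
            Finset.sum_le_sum fun n hn => (hI1 n hn).le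
        _ ≤ ∑ n ∈ box, (((range I).filter fun i => n ∈ W i).card : ℝ) :=
            Finset.sum_le_sum_of_subset_of_nonneg (filter_subset _ _) (fun _ _ _ => Nat.cast_nonneg _)
        _ = ∑ i ∈ range I, ((W i).card : ℝ) := hdc I
        _ ≤ i₀ * (T : ℝ) ^ k + I * (C * (T : ℝ) ^ ((k : ℝ) - 1 / C)) := hsum I
        _ ≤ 2 * (I * (C * (T : ℝ) ^ ((k : ℝ) - 1 / C))) := by linarith
    have hE1 : (E.card : ℝ) * (T : ℝ) ^ (-(1 / (K : ℝ))) ≤ 2 * (C * (T : ℝ) ^ ((k : ℝ) - 1 / C)) := by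
      apply le_of_mul_le_mul_right _ hI0
      calc (E.card : ℝ) * (T : ℝ) ^ (-(1 / (K : ℝ))) * I =
          (E.card : ℝ) * ((T : ℝ) ^ (-(1 / (K : ℝ))) * I) := by ring
        _ ≤ _ := hEs
        _ = _ := by ring
    have hxx : (T : ℝ) ^ (-(1 / (K : ℝ))) * (T : ℝ) ^ (1 / (K : ℝ)) = 1 := by
      rw [← Real.rpow_add hTp]; simp
    calc (E.card : ℝ) = (E.card : ℝ) * (T : ℝ) ^ (-(1 / (K : ℝ))) * (T : ℝ) ^ (1 / (K : ℝ)) := by
          rw [mul_assoc, hxx, mul_one]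
      _ ≤ 2 * (C * (T : ℝ) ^ ((k : ℝ) - 1 / C)) * (T : ℝ) ^ (1 / (K : ℝ)) :=
          mul_le_mul_of_nonneg_right hE1 (by positivity)
      _ = 2 * C * ((T : ℝ) ^ (1 / (K : ℝ)) * (T : ℝ) ^ ((k : ℝ) - 1 / C)) := by ring
      _ ≤ K * (T : ℝ) ^ ((k : ℝ) - 1 / K) :=
          mul_le_mul (by linarith) hexp (by positivity) hK0.le

end Pool.Agent.K3h34.RM
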