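import Mathlib
import Pool.Agent.K3h34.RM.Range

/-!
# Adjoining logarithms of integers to a tuple of numbers with a measure of algebraic independence
-/

set_option autoImplicit false

namespace Pool.Agent.K3h34.RM

open Filter Finset Pool.Agent.Y916 Pool.Agent.Y535.LG Pool.Agent.R351.GF

/-- the lower bound at height `H` -/
def Meas {σ : Type} (d C : ℕ) (H : ℝ) (x : σ → ℂ) : Prop :=
  ∀ P : MvPolynomial σ ℤ, P ≠ 0 → P.totalDegree ≤ d → (∀ s, |((P.coeff s : ℤ) : ℝ)| ≤ H) →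
    1 / H ^ C ≤ ‖MvPolynomial.aeval x P‖

/-- the lower bound at height `H` fails for some logarithms of the `n i` together with `lam` -/
def BadX {k m : ℕ} (d C : ℕ) (H : ℝ) (lam : Fin m → ℂ) (n : Fin k → ℕ) : Prop :=
  ∃ l : Fin k → ℂ, (∀ i, Complex.exp (l i) = n i) ∧ (∀ i, |(l i).im| ≤ H) ∧
    ¬ Meas d C H (Sum.elim l lam)

section Sum

variable {k m : ℕ}

/-- the two parts of an exponent -/
noncomputable def pl (g : Fin k ⊕ Fin m →₀ ℕ) : Fin k →₀ ℕ :=
  Finsupp.equivFunOnFinite.symm fun i => g (Sum.inl i)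

noncomputable def pr (g : Fin k ⊕ Fin m →₀ ℕ) : Fin m →₀ ℕ :=
  Finsupp.equivFunOnFinite.symm fun i => g (Sum.inr i)

theorem prod_X_eq {σ R : Type} [Fintype σ] [CommRing R] (g : σ →₀ ℕ) (c : R) :
    (MvPolynomial.monomial g c : MvPolynomial σ R) =
      MvPolynomial.C c * ∏ i, (MvPolynomial.X i : MvPolynomial σ R) ^ g i := by
  rw [MvPolynomial.monomial_eq, Finsupp.prod_fintype _ _ (fun i => pow_zero _)]

theorem sae_monomial (g : Fin k ⊕ Fin m →₀ ℕ) (c : ℤ) :
    MvPolynomial.sumAlgEquiv ℤ (Fin k) (Fin m) (MvPolynomial.monomial g c) =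
      MvPolynomial.monomial (pl g) (MvPolynomial.monomial (pr g) c) := by
  rw [prod_X_eq g c, prod_X_eq (pl g), prod_X_eq (pr g) c]
  rw [map_mul, map_prod, MvPolynomial.sumAlgEquiv_C_inl, Fintype.prod_sum_type, map_mul, map_prod,
    mul_assoc]
  simp only [map_pow, MvPolynomial.sumAlgEquiv_X_inl, MvPolynomial.sumAlgEquiv_X_inr]
  have h1 : ∀ i : Fin k, pl g i = g (Sum.inl i) := fun i => rfl
  have h2 : ∀ i : Fin m, pr g i = g (Sum.inr i) := fun i => rfl
  simp only [h1, h2]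
  ring

theorem sae_coeff (P : MvPolynomial (Fin k ⊕ Fin m) ℤ) (e : Fin k →₀ ℕ) (f : Fin m →₀ ℕ) :
    ((MvPolynomial.sumAlgEquiv ℤ (Fin k) (Fin m) P).coeff e).coeff f =
      P.coeff (Finsupp.sumElim e f) := by
  classical
  induction P using MvPolynomial.induction_on' with
  | monomial g c =>
    rw [sae_monomial, MvPolynomial.coeff_monomial, MvPolynomial.coeff_monomial]
    by_cases h : g = Finsupp.sumElim e f
    · have h1 : pl g = e := by
        rw [h]; ext i; rfl
      have h2 : pr g = f := by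
        rw [h]; ext i; rfl
      rw [if_pos h, if_pos h1, MvPolynomial.coeff_monomial, if_pos h2]
    · rw [if_neg h]
      by_cases h1 : pl g = e
      · rw [if_pos h1, MvPolynomial.coeff_monomial, if_neg]
        intro h2
        apply h
        ext x
        rcases x with i | i
        · rw [Finsupp.sumElim_inl, ← h1]; rfl
        · rw [Finsupp.sumElim_inr, ← h2]; rfl
      · rw [if_neg h1, MvPolynomial.coeff_zero]
  | add p q hp hq => rw [map_add, MvPolynomial.coeff_add, MvPolynomial.coeff_add,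
      MvPolynomial.coeff_add, hp, hq]

theorem sum_sumElim (e : Fin k →₀ ℕ) (f : Fin m →₀ ℕ) :
    ((Finsupp.sumElim e f).sum fun _ k => k) = (e.sum fun _ k => k) + f.sum fun _ k => k := by
  rw [Finsupp.sum_fintype _ _ (fun _ => rfl), Finsupp.sum_fintype _ _ (fun _ => rfl),
    Finsupp.sum_fintype _ _ (fun _ => rfl), Fintype.sum_sum_type]
  rfl

end Sum

/-- the monomials in `lam` -/
noncomputable def vm {m : ℕ} (d : ℕ) (lam : Fin m → ℂ) (i : Fin (Fintype.card (Mn m d))) : ℂ :=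
  ∏ t, lam t ^ (((Fintype.equivFin (Mn m d)).symm i).1 t : ℕ)

theorem vm_norm_le {m d : ℕ} {lam : Fin m → ℂ} {Y : ℝ} (hY : 1 ≤ Y) (h : ∀ i, ‖lam i‖ ≤ Y)
    (i : Fin (Fintype.card (Mn m d))) : ‖vm d lam i‖ ≤ Y ^ d := by
  rw [vm, norm_prod]
  set e := (Fintype.equivFin (Mn m d)).symm i with he
  calc ∏ t, ‖lam t ^ (e.1 t : ℕ)‖ ≤ ∏ t, Y ^ (e.1 t : ℕ) := by
        refine Finset.prod_le_prod (fun _ _ => norm_nonneg _) fun t _ => ?_
        rw [norm_pow]
        exact pow_le_pow_left₀ (norm_nonneg _) (h t) _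
    _ = Y ^ ∑ t, (e.1 t : ℕ) := by rw [Finset.prod_pow_eq_pow_sum]
    _ ≤ Y ^ d := pow_le_pow_right₀ hY e.2

theorem smlR_of_badX {k m d B C : ℕ} {H : ℝ} {lam : Fin m → ℂ} {n : Fin k → ℕ}
    (hM : Meas d B H lam) (h : BadX d C H lam n) : SmlR d B C H (vm d lam) n := by
  classical
  obtain ⟨l, hl, hlH, hnot⟩ := h
  unfold Meas at hnot
  push Not at hnot
  obtain ⟨P, hP0, hPd, hPH, hPv⟩ := hnot
  set Ψ := MvPolynomial.sumAlgEquiv ℤ (Fin k) (Fin m) P with hΨ
  have hdeg : ∀ e f, (Ψ.coeff e).coeff f ≠ 0 → (e.sum fun _ k => k) + (f.sum fun _ k => k) ≤ d := by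
    intro e f hef
    rw [hΨ, sae_coeff] at hef
    rw [← sum_sumElim]
    exact (MvPolynomial.le_totalDegree (MvPolynomial.mem_support_iff.2 hef)).trans hPd
  have hΨd : Ψ.totalDegree ≤ d := by
    rw [MvPolynomial.totalDegree]
    refine Finset.sup_le fun e he => ?_
    obtain ⟨f, hf⟩ := MvPolynomial.ne_zero_iff.1 (MvPolynomial.mem_support_iff.1 he)
    have := hdeg e f hf
    omega
  have hcd : ∀ e, (Ψ.coeff e).totalDegree ≤ d := by
    intro e
    rw [MvPolynomial.totalDegree]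
    refine Finset.sup_le fun f hf => ?_
    have := hdeg e f (MvPolynomial.mem_support_iff.1 hf)
    omega
  have hcH : ∀ e f, |(((Ψ.coeff e).coeff f : ℤ) : ℝ)| ≤ H := by
    intro e f
    rw [hΨ, sae_coeff]
    exact hPH _
  set Q : MvPolynomial (Fin k) ℂ :=
    MvPolynomial.map ((MvPolynomial.aeval lam : MvPolynomial (Fin m) ℤ →ₐ[ℤ] ℂ) :
      MvPolynomial (Fin m) ℤ →+* ℂ) Ψ with hQ
  have hQc : ∀ e, Q.coeff e = MvPolynomial.aeval lam (Ψ.coeff e) := by
    intro e
    rw [hQ, MvPolynomial.coeff_map]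
    rfl
  refine ⟨l, hl, hlH, Q, ?_, ?_, ?_, ?_⟩
  · refine le_trans ?_ hΨd
    exact Finset.sup_mono (MvPolynomial.support_map_subset _ _)
  · intro e
    refine ⟨fun i => (Ψ.coeff e).coeff (toF ((Fintype.equivFin (Mn m d)).symm i)),
      fun i => hcH _ _, ?_⟩
    rw [hQc, aeval_sumZ _ (hcd e)]
    rw [← Equiv.sum_comp (Fintype.equivFin (Mn m d)).symm]
    rfl
  · have hΨ0 : Ψ ≠ 0 := by
      intro h0
      apply hP0
      apply (MvPolynomial.sumAlgEquiv ℤ (Fin k) (Fin m)).injective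
      rw [map_zero]
      exact h0
    obtain ⟨e, he⟩ := MvPolynomial.ne_zero_iff.1 hΨ0
    refine ⟨e, ?_⟩
    rw [hQc]
    exact hM _ he (hcd e) (hcH e)
  · have h1 : MvPolynomial.eval l Q = MvPolynomial.aeval (Sum.elim l lam) P := by
      have h2 : (MvPolynomial.eval l).comp
          ((MvPolynomial.map ((MvPolynomial.aeval lam : MvPolynomial (Fin m) ℤ →ₐ[ℤ] ℂ) :
            MvPolynomial (Fin m) ℤ →+* ℂ)).comp
              ((MvPolynomial.sumAlgEquiv ℤ (Fin k) (Fin m) :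
                MvPolynomial (Fin k ⊕ Fin m) ℤ →+* _))) =
          ((MvPolynomial.aeval (Sum.elim l lam) : MvPolynomial (Fin k ⊕ Fin m) ℤ →ₐ[ℤ] ℂ) :
            MvPolynomial (Fin k ⊕ Fin m) ℤ →+* ℂ) := by
        apply MvPolynomial.ringHom_ext
        · intro a
          simp
        · rintro (i | i)
          · simp
          · simp
      exact DFunLike.congr_fun h2 P
    rw [h1]
    exact hPv

end Pool.Agent.K3h34.RM
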